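import Mathlib

set_option autoImplicit false

/-!
Group algebras with nil augmentation ideal: reduction to residually finite groups.
-/

namespace Pool.Agent.K1H5.NA

open MonoidAlgebra
open scoped commutatorElement

universe u v

/-- The augmentation ideal. -/
noncomputable def aug (K : Type v) [Field K] (G : Type u) [Group G] : Ideal (MonoidAlgebra K G) :=
  Ideal.span {y : MonoidAlgebra K G | ∃ g : G, y = MonoidAlgebra.of K G g - 1}

/-- The augmentation ideal is nil. -/
def NilAug (K : Type v) [Field K] (G : Type u) [Group G] : Prop :=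
  ∀ x ∈ aug K G, IsNilpotent x

/-- `G` is residually finite. -/
def ResFin (G : Type u) [Group G] : Prop :=
  ∀ g : G, g ≠ 1 → ∃ N : Subgroup G, N.Normal ∧ N.FiniteIndex ∧ g ∉ N

/-- The finite residual of `G`: the intersection of the normal subgroups of finite index. -/
def res (G : Type u) [Group G] : Subgroup G := sInf {N : Subgroup G | N.Normal ∧ N.FiniteIndex}

section

variable {K : Type v} [Field K] {G : Type u} [Group G]

lemma mem_aug (g : G) : MonoidAlgebra.of K G g - 1 ∈ aug K G := Ideal.subset_span ⟨g, rfl⟩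

lemma exists_pow (p : ℕ) [hp : Fact p.Prime] [CharP K p] (h : NilAug K G) (g : G) :
    ∃ k : ℕ, g ^ p ^ k = 1 := by
  obtain ⟨n, hn⟩ := h _ (mem_aug g)
  have hk : n ≤ p ^ n := (Nat.lt_pow_self hp.out.one_lt).le
  have h1 : (MonoidAlgebra.of K G g - 1) ^ p ^ n = 0 := pow_eq_zero_of_le hk hn
  have : CharP (MonoidAlgebra K G) p :=
    charP_of_injective_algebraMap (algebraMap K (MonoidAlgebra K G)).injective p
  rw [sub_pow_char_pow_of_commute (p := p) (h := Commute.one_right (MonoidAlgebra.of K G g)), one_pow,
    sub_eq_zero, ← map_pow] at h1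
  refine ⟨n, MonoidAlgebra.of_injective (R := K) ?_⟩
  rw [h1, map_one]

lemma aug_mul_right (x : MonoidAlgebra K G) (hx : x ∈ aug K G) (g : G) :
    x * MonoidAlgebra.of K G g ∈ aug K G := by
  induction hx using Submodule.span_induction with
  | mem x hx =>
    obtain ⟨h, rfl⟩ := hx
    have : (MonoidAlgebra.of K G h - 1) * MonoidAlgebra.of K G g =
        (MonoidAlgebra.of K G (h * g) - 1) - (MonoidAlgebra.of K G g - 1) := by
      rw [map_mul]; noncomm_ring
    rw [this]
    exact sub_mem (mem_aug _) (mem_aug _)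
  | zero => rw [zero_mul]; exact zero_mem _
  | add x y _ _ hx hy => rw [add_mul]; exact add_mem hx hy
  | smul a x _ hx => rw [smul_eq_mul, mul_assoc]; exact Ideal.mul_mem_left _ _ hx

lemma aug_fg (hG : Group.FG G) : (aug K G).FG := by
  classical
  obtain ⟨T, hT⟩ := Group.fg_def.1 hG
  refine ⟨T.image (fun g => MonoidAlgebra.of K G g - 1), ?_⟩
  apply le_antisymm
  · rw [Submodule.span_le]
    intro x hx
    simp only [Finset.coe_image, Set.mem_image] at hx
    obtain ⟨g, _, rfl⟩ := hx
    exact mem_aug g
  · let J : Ideal (MonoidAlgebra K G) :=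
      Submodule.span _ (T.image (fun g => MonoidAlgebra.of K G g - 1) : Set (MonoidAlgebra K G))
    change Ideal.span _ ≤ J
    rw [Ideal.span_le]
    rintro _ ⟨g, rfl⟩
    have hg : g ∈ Subgroup.closure (T : Set G) := by rw [hT]; exact Subgroup.mem_top g
    induction hg using Subgroup.closure_induction with
    | mem x hx =>
      apply Submodule.subset_span
      simp only [Finset.coe_image, Set.mem_image]
      exact ⟨x, hx, rfl⟩
    | one => rw [map_one, sub_self]; exact zero_mem J
    | mul x y _ _ hx hy =>
      have : MonoidAlgebra.of K G (x * y) - 1 = MonoidAlgebra.of K G x *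
          (MonoidAlgebra.of K G y - 1) + (MonoidAlgebra.of K G x - 1) := by
        rw [map_mul]; noncomm_ring
      rw [this]
      exact J.add_mem (J.mul_mem_left _ hy) hx
    | inv x _ hx =>
      have : MonoidAlgebra.of K G x⁻¹ - 1 = -(MonoidAlgebra.of K G x⁻¹ *
          (MonoidAlgebra.of K G x - 1)) := by
        rw [mul_sub, ← map_mul, inv_mul_cancel, map_one, mul_one]; noncomm_ring
      rw [this]
      exact J.neg_mem (J.mul_mem_left _ hx)

lemma aug_le_jacobson (h : NilAug K G) : aug K G ≤ Ring.jacobson (MonoidAlgebra K G) := by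
  intro x hx
  rw [Ring.jacobson_eq_sInf_isMaximal, Submodule.mem_sInf]
  intro m hm
  by_contra hxm
  have hm' : Ideal.IsMaximal m := hm
  obtain ⟨r, hr⟩ : ∃ r, 1 - r * x ∈ m := by
    obtain ⟨a, ha⟩ := hm'.exists_inv hxm
    obtain ⟨i, hi, hai⟩ := ha
    refine ⟨a, ?_⟩
    have : 1 - a * x = i := by rw [← hai]; noncomm_ring
    rw [this]; exact hi
  have h1 : IsNilpotent (r * x) := h _ (Ideal.mul_mem_left _ r hx)
  exact hm'.ne_top (Ideal.eq_top_of_isUnit_mem _ hr h1.isUnit_one_sub)

/-- A nontrivial finitely generated group with nil augmentation ideal is not perfect. -/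
lemma not_perfect (hG : Group.FG G) (h : NilAug K G) (hc : commutator G = ⊤) (g : G) : g = 1 := by
  let I := aug K G
  have key : I ≤ Ring.jacobson (MonoidAlgebra K G) • I := by
    have hJ : ∀ a b : MonoidAlgebra K G, a ∈ I → b ∈ I →
        a * b ∈ Ring.jacobson (MonoidAlgebra K G) • I := fun a b ha hb =>
      Submodule.smul_mem_smul (aug_le_jacobson h ha) hb
    have hS : ∀ x : G, MonoidAlgebra.of K G x - 1 ∈ Ring.jacobson (MonoidAlgebra K G) • I := by
      intro x
      have hx : x ∈ Subgroup.closure {g : G | ∃ g₁ ∈ (⊤ : Subgroup G), ∃ g₂ ∈ (⊤ : Subgroup G),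
          ⁅g₁, g₂⁆ = g} := by
        have : x ∈ commutator G := by rw [hc]; exact Subgroup.mem_top x
        rw [commutator_def, Subgroup.commutator_def] at this
        exact this
      induction hx using Subgroup.closure_induction with
      | mem x hx =>
        obtain ⟨a, _, b, _, rfl⟩ := hx
        have e : MonoidAlgebra.of K G ⁅a, b⁆ - 1 =
            (MonoidAlgebra.of K G a - 1) * ((MonoidAlgebra.of K G b - 1) *
              MonoidAlgebra.of K G (a⁻¹ * b⁻¹)) -
            (MonoidAlgebra.of K G b - 1) * ((MonoidAlgebra.of K G a - 1) *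
              MonoidAlgebra.of K G (a⁻¹ * b⁻¹)) := by
          have e1 : MonoidAlgebra.of K G ⁅a, b⁆ = MonoidAlgebra.of K G a * MonoidAlgebra.of K G b *
              MonoidAlgebra.of K G (a⁻¹ * b⁻¹) := by
            rw [← map_mul, ← map_mul]; congr 1; rw [commutatorElement_def]; group
          have e2 : (1 : MonoidAlgebra K G) = MonoidAlgebra.of K G b * MonoidAlgebra.of K G a *
              MonoidAlgebra.of K G (a⁻¹ * b⁻¹) := by
            rw [← map_mul, ← map_mul, ← map_one (MonoidAlgebra.of K G)]; congr 1; group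
          rw [e1]
          nth_rewrite 1 [e2]
          noncomm_ring
        rw [e]
        exact sub_mem (hJ _ _ (mem_aug a) (aug_mul_right _ (mem_aug b) _))
          (hJ _ _ (mem_aug b) (aug_mul_right _ (mem_aug a) _))
      | one => rw [map_one, sub_self]; exact zero_mem _
      | mul x y _ _ hx hy =>
        have : MonoidAlgebra.of K G (x * y) - 1 = MonoidAlgebra.of K G x *
            (MonoidAlgebra.of K G y - 1) + (MonoidAlgebra.of K G x - 1) := by
          rw [map_mul]; noncomm_ring
        rw [this]
        exact add_mem (Ideal.mul_mem_left _ _ hy) hx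
      | inv x _ hx =>
        have : MonoidAlgebra.of K G x⁻¹ - 1 = -(MonoidAlgebra.of K G x⁻¹ *
            (MonoidAlgebra.of K G x - 1)) := by
          rw [mul_sub, ← map_mul, inv_mul_cancel, map_one, mul_one]; noncomm_ring
        rw [this]
        exact neg_mem (Ideal.mul_mem_left _ _ hx)
    change Ideal.span _ ≤ _
    rw [Ideal.span_le]
    rintro _ ⟨x, rfl⟩
    exact hS x
  have h0 : I = ⊥ := Submodule.FG.eq_bot_of_le_jacobson_smul (aug_fg hG) key
  have h1 : MonoidAlgebra.of K G g - 1 ∈ I := mem_aug g
  rw [h0, Submodule.mem_bot, sub_eq_zero, ← map_one (MonoidAlgebra.of K G)] at h1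
  exact MonoidAlgebra.of_injective h1

lemma nil_sub (h : NilAug K G) (H : Subgroup G) : NilAug K H := by
  intro x hx
  have h1 : aug K H ≤ Ideal.comap (mapDomainRingHom K H.subtype) (aug K G) := by
    change Ideal.span _ ≤ _
    rw [Ideal.span_le]
    rintro _ ⟨g, rfl⟩
    change mapDomainRingHom K H.subtype (MonoidAlgebra.of K H g - 1) ∈ aug K G
    rw [map_sub, map_one]
    have : mapDomainRingHom K H.subtype (MonoidAlgebra.of K H g) =
        MonoidAlgebra.of K G (g : G) := by simp
    rw [this]
    exact mem_aug _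
  obtain ⟨n, hn⟩ := h _ (h1 hx)
  refine ⟨n, ?_⟩
  rw [← map_pow] at hn
  have hinj : Function.Injective (mapDomainRingHom K H.subtype) :=
    MonoidAlgebra.mapDomain_injective H.subtype_injective
  exact (map_eq_zero_iff _ hinj).1 hn

lemma nil_quot (h : NilAug K G) (N : Subgroup G) [N.Normal] : NilAug K (G ⧸ N) := by
  have hsurj : Function.Surjective (mapDomainRingHom K (QuotientGroup.mk' N)) := by
    intro x
    induction x using MonoidAlgebra.induction_linear with
    | zero => exact ⟨0, map_zero _⟩
    | add x y hx hy =>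
      obtain ⟨a, rfl⟩ := hx
      obtain ⟨b, rfl⟩ := hy
      exact ⟨a + b, map_add _ _ _⟩
    | single q r =>
      obtain ⟨g, rfl⟩ := QuotientGroup.mk'_surjective N q
      exact ⟨single g r, by simp⟩
  have h1 : ∀ x ∈ aug K (G ⧸ N), ∃ y ∈ aug K G,
      mapDomainRingHom K (QuotientGroup.mk' N) y = x := by
    intro x hx
    induction hx using Submodule.span_induction with
    | mem x hx =>
      obtain ⟨q, rfl⟩ := hx
      obtain ⟨g, rfl⟩ := QuotientGroup.mk'_surjective N q
      exact ⟨_, mem_aug g, by rw [map_sub, map_one]; simp⟩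
    | zero => exact ⟨0, zero_mem _, map_zero _⟩
    | add x y _ _ hx hy =>
      obtain ⟨a, ha, rfl⟩ := hx
      obtain ⟨b, hb, rfl⟩ := hy
      exact ⟨a + b, add_mem ha hb, map_add _ _ _⟩
    | smul a x _ hx =>
      obtain ⟨b, hb, rfl⟩ := hx
      obtain ⟨c, rfl⟩ := hsurj a
      exact ⟨c * b, Ideal.mul_mem_left _ _ hb, map_mul _ _ _⟩
  intro x hx
  obtain ⟨y, hy, rfl⟩ := h1 x hx
  exact (h y hy).map _

/-- the abelianisation is finite -/
lemma finite_ab (p : ℕ) [hp : Fact p.Prime] [CharP K p] (hG : Group.FG G) (h : NilAug K G) :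
    Finite (Abelianization G) := by
  have : Group.FG (Abelianization G) := QuotientGroup.fg (commutator G)
  apply CommGroup.finite_of_fg_torsion
  intro x
  obtain ⟨g, hg⟩ : ∃ g : G, Abelianization.of g = x := QuotientGroup.mk'_surjective _ x
  obtain ⟨k, hk⟩ := exists_pow p h g
  rw [isOfFinOrder_iff_pow_eq_one]
  refine ⟨p ^ k, pow_pos hp.out.pos k, ?_⟩
  rw [← hg, ← map_pow, hk, map_one]

/-- **Main step**: a finitely generated infinite group with nil augmentation ideal has an infinite
residually finite quotient. -/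
theorem res_infinite (p : ℕ) [hp : Fact p.Prime] [CharP K p] (hG : Group.FG G) (h : NilAug K G)
    (hf : (res G).FiniteIndex) : Finite G := by
  have hN : (res G).Normal := by
    constructor
    intro x hx g
    unfold res at hx ⊢
    rw [Subgroup.mem_sInf] at hx ⊢
    intro M hM
    exact hM.1.conj_mem x (hx M hM) g
  have hfg : Group.FG (res G) := by
    have := Subgroup.fg_of_index_ne_zero (res G)
    exact this
  have hnil := nil_sub h (res G)
  have hab := finite_ab p hfg hnil
  have hci : (commutator (res G)).FiniteIndex := by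
    have : Finite (res G ⧸ commutator (res G)) := hab
    exact Subgroup.finiteIndex_of_finite_quotient
  have h2 : (⁅res G, res G⁆).FiniteIndex := by
    rw [← Subgroup.map_subtype_commutator]
    constructor
    rw [Subgroup.index_map_subtype]
    exact mul_ne_zero hci.index_ne_zero hf.index_ne_zero
  have h3 : res G ≤ ⁅res G, res G⁆ := sInf_le ⟨inferInstance, h2⟩
  have h4 : commutator (res G) = ⊤ := by
    rw [eq_top_iff]
    intro x _
    have h5 := h3 x.2
    rw [← Subgroup.map_subtype_commutator] at h5
    obtain ⟨y, hy, hyx⟩ := h5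
    have : y = x := Subtype.ext hyx
    rwa [← this]
  have h5 : res G = ⊥ := by
    rw [eq_bot_iff]
    intro x hx
    have := not_perfect hfg hnil h4 ⟨x, hx⟩
    exact Subgroup.mem_bot.2 (congrArg Subtype.val this)
  rw [h5] at hf
  have : Finite (G ⧸ (⊥ : Subgroup G)) := Subgroup.finite_quotient_of_finiteIndex
  exact Finite.of_equiv _ (QuotientGroup.quotientBot (G := G)).toEquiv

end

end Pool.Agent.K1H5.NA
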