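import Mathlib
import Pool.Agent.K1H5.NA.Main

set_option autoImplicit false

namespace Pool.Agent.K1H5.NA

open MonoidAlgebra
open scoped commutatorElement

universe u v

/-- `G` is locally finite. -/
def LocFin (G : Type u) [Group G] : Prop := ∀ H : Subgroup G, H.FG → Finite H

instance res_normal (G : Type u) [Group G] : (res G).Normal := by
  constructor
  intro x hx g
  unfold res at hx ⊢
  rw [Subgroup.mem_sInf] at hx ⊢
  intro M hM
  exact hM.1.conj_mem x (hx M hM) g

lemma resFin_quot (G : Type u) [Group G] : ResFin (G ⧸ res G) := by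
  intro q hq
  obtain ⟨g, rfl⟩ := QuotientGroup.mk'_surjective (res G) q
  have hg : g ∉ res G := by
    intro h
    apply hq
    rw [QuotientGroup.mk'_apply]
    exact (QuotientGroup.eq_one_iff g).2 h
  obtain ⟨M, hM, hgM⟩ : ∃ M : Subgroup G, (M.Normal ∧ M.FiniteIndex) ∧ g ∉ M := by
    by_contra hcon
    push Not at hcon
    apply hg
    unfold res
    rw [Subgroup.mem_sInf]
    exact fun M hM => hcon M hM
  have hle : res G ≤ M := sInf_le hM
  have hMn := hM.1
  have hMf := hM.2
  refine ⟨M.map (QuotientGroup.mk' (res G)),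
    Subgroup.Normal.map hM.1 _ (QuotientGroup.mk'_surjective _), ?_, ?_⟩
  · constructor
    intro h0
    apply hMf.index_ne_zero
    have h1 := Subgroup.index_map_dvd M (f := QuotientGroup.mk' (res G))
      (QuotientGroup.mk'_surjective _)
    have h2 := Subgroup.index_map_eq M (f := QuotientGroup.mk' (res G))
      (QuotientGroup.mk'_surjective _) (by rw [QuotientGroup.ker_mk']; exact hle)
    rw [← h2]
    exact h0
  · rintro ⟨x, hx, hxg⟩
    apply hgM
    rw [QuotientGroup.mk'_apply, QuotientGroup.mk'_apply] at hxg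
    have h1 := QuotientGroup.eq.1 hxg
    have h2 := M.mul_mem hx (hle h1)
    rwa [mul_inv_cancel_left] at h2

/-- part 1 -/
theorem part1 (K : Type v) [Field K] (G : Type u) [Group G] (h : NilAug K G) (H : Subgroup G)
    (hH : H.FG) (hne : H ≠ ⊥) : ⁅H, H⁆ ≠ H := by
  intro hc
  apply hne
  have hfg : Group.FG H := (Group.fg_iff_subgroup_fg H).2 hH
  have hcc : commutator H = ⊤ := by
    rw [eq_top_iff]
    intro x _
    have h5 : (x : G) ∈ ⁅H, H⁆ := by rw [hc]; exact x.2
    rw [← Subgroup.map_subtype_commutator] at h5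
    obtain ⟨y, hy, hyx⟩ := h5
    have : y = x := Subtype.ext hyx
    rwa [← this]
  rw [eq_bot_iff]
  intro x hx
  have := not_perfect hfg (nil_sub h H) hcc ⟨x, hx⟩
  exact Subgroup.mem_bot.2 (congrArg Subtype.val this)

/-- part 2 -/
theorem part2 (K : Type v) [Field K] (p : ℕ) [Fact p.Prime] [CharP K p] (G : Type u) [Group G]
    (hG : Group.FG G) (h : NilAug K G) (hinf : Infinite G) :
    Infinite (G ⧸ res G) ∧ ResFin (G ⧸ res G) ∧ NilAug K (G ⧸ res G) := by
  refine ⟨?_, resFin_quot G, nil_quot h (res G)⟩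
  rw [← not_finite_iff_infinite] at hinf ⊢
  intro hfin
  exact hinf (res_infinite p hG h Subgroup.finiteIndex_of_finite_quotient)

/-- part 3 -/
theorem part3 (K : Type v) [Field K] (p : ℕ) [Fact p.Prime] [CharP K p] :
    (∀ (G : Type u) [Group G], NilAug K G → LocFin G) ↔
      ∀ (G : Type u) [Group G], Group.FG G → ResFin G → NilAug K G → Finite G := by
  constructor
  · intro h G _ hG _ hn
    have h1 := h G hn ⊤ (Group.fg_def.1 hG)
    exact Finite.of_equiv _ (Subgroup.topEquiv (G := G)).toEquiv
  · intro h G _ hn H hH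
    have hfg : Group.FG H := (Group.fg_iff_subgroup_fg H).2 hH
    by_contra hinf
    rw [not_finite_iff_infinite] at hinf
    obtain ⟨h1, h2, h3⟩ := part2 K p H hfg (nil_sub hn H) hinf
    have h4 := h (H ⧸ res H) (QuotientGroup.fg (res H)) h2 h3
    exact not_finite (H ⧸ res H)

end Pool.Agent.K1H5.NA
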